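import Mathlib

/-!
# A pigeonhole lemma for chains
-/

set_option autoImplicit false

namespace Pool.Agent.IGP

/-- Long paths contain short loops: `R s l s'` says that `s'` can be reached from `s` by a path of
length `l`, `P s L` is the property of interest, `E s L` an exit. -/
theorem chain {S : Type} [Fintype S] [DecidableEq S] (R : S → ℕ → S → Prop) (P E : S → ℕ → Prop)
    (T : ℕ) (hrefl : ∀ s, R s 0 s)
    (htrans : ∀ s l s' l' s'', R s l s' → R s' l' s'' → R s (l + l') s'')
    (hstep : ∀ s L, P s L → 0 < L →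
      (∃ l s' L', 0 < l ∧ l ≤ T ∧ L = l + L' ∧ R s l s' ∧ P s' L') ∨ E s L) (k : ℕ) :
    ∀ (V : Finset S) (s : S) (L : ℕ), Fintype.card S ≤ V.card + k → P s L → k * T < L →
      (∀ u ∈ V, ∃ d, 0 < d ∧ d ≤ V.card * T ∧ R u d s) →
      ∃ s' l L', l ≤ k * T ∧ L = l + L' ∧ R s l s' ∧ 0 < L' ∧
        (E s' L' ∨ (P s' L' ∧ ∃ d, 0 < d ∧ d ≤ Fintype.card S * T ∧ R s' d s')) := by
  induction k with
  | zero =>
    intro V s L hV hP hL hu
    have hV' : V = Finset.univ := by
      rw [← Finset.card_eq_iff_eq_univ]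
      exact le_antisymm (Finset.card_le_univ V) (by simpa using hV)
    have hs : s ∈ V := by rw [hV']; exact Finset.mem_univ s
    obtain ⟨d, h1, h2, h3⟩ := hu s hs
    exact ⟨s, 0, L, by omega, by omega, hrefl s, by omega, Or.inr ⟨hP, d, h1,
      h2.trans (Nat.mul_le_mul_right _ (Finset.card_le_univ V)), h3⟩⟩
  | succ k ih =>
    intro V s L hV hP hL hu
    by_cases hs : s ∈ V
    · obtain ⟨d, h1, h2, h3⟩ := hu s hs
      exact ⟨s, 0, L, by omega, by omega, hrefl s, by omega, Or.inr ⟨hP, d, h1,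
        h2.trans (Nat.mul_le_mul_right _ (Finset.card_le_univ V)), h3⟩⟩
    · rcases hstep s L hP (by omega) with ⟨l, s', L', h1, h2, h3, h4, h5⟩ | hE
      · have hcard : (insert s V).card = V.card + 1 := Finset.card_insert_of_notMem hs
        rw [Nat.succ_mul] at hL
        obtain ⟨s'', l'', L'', g1, g2, g3, g4, g5⟩ := ih (insert s V) s' L' (by omega) h5
          (by omega) (by
            intro u hu'
            rw [Finset.mem_insert] at hu'
            rcases hu' with rfl | hu'
            · exact ⟨l, h1, by rw [hcard, Nat.succ_mul]; omega, h4⟩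
            · obtain ⟨d, e1, e2, e3⟩ := hu u hu'
              exact ⟨d + l, by omega, by rw [hcard, Nat.succ_mul]; omega,
                htrans _ _ _ _ _ e3 h4⟩)
        exact ⟨s'', l + l'', L'', by rw [Nat.succ_mul]; omega, by omega,
          htrans _ _ _ _ _ h4 g3, g4, g5⟩
      · exact ⟨s, 0, L, by omega, by omega, hrefl s, by omega, Or.inl hE⟩

theorem chain' {S : Type} [Fintype S] (R : S → ℕ → S → Prop) (P E : S → ℕ → Prop)
    (T : ℕ) (hrefl : ∀ s, R s 0 s)
    (htrans : ∀ s l s' l' s'', R s l s' → R s' l' s'' → R s (l + l') s'')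
    (hstep : ∀ s L, P s L → 0 < L →
      (∃ l s' L', 0 < l ∧ l ≤ T ∧ L = l + L' ∧ R s l s' ∧ P s' L') ∨ E s L)
    (s : S) (L : ℕ) (hP : P s L) (hL : Fintype.card S * T < L) :
      ∃ s' l L', l ≤ Fintype.card S * T ∧ L = l + L' ∧ R s l s' ∧ 0 < L' ∧
        (E s' L' ∨ (P s' L' ∧ ∃ d, 0 < d ∧ d ≤ Fintype.card S * T ∧ R s' d s')) := by
  classical
  exact chain R P E T hrefl htrans hstep (Fintype.card S) ∅ s L (by simp) hP hL (by simp)

theorem loop_iter {S : Type} (R : S → ℕ → S → Prop) (hrefl : ∀ s, R s 0 s)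
    (htrans : ∀ s l s' l' s'', R s l s' → R s' l' s'' → R s (l + l') s'') {s : S} {d : ℕ}
    (h : R s d s) (r : ℕ) : R s (r * d) s := by
  induction r with
  | zero => rw [zero_mul]; exact hrefl s
  | succ r ih => rw [Nat.succ_mul]; exact htrans _ _ _ _ _ ih h

end Pool.Agent.IGP
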