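import Mathlib

/-!
# Deterministic pushdown automata

A deterministic pushdown automaton in state `q` with top stack symbol `X` makes the silent move
`eps q X` if it is defined; if it is not defined, it reads the next letter `a` and makes the move
`read q X a` if this is defined.  A move replaces the top symbol by a word of stack symbols and
changes the state.  The top of the stack is the head of the list.
-/

set_option autoImplicit false

namespace Pool.Agent.IGP

/-- A deterministic pushdown automaton with input letters `α`, states `Q`, stack symbols `Γ`. -/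
structure DPDA (α Q Γ : Type) where
  /-- silent moves -/
  eps : Q → Γ → Option (Q × List Γ)
  /-- reading moves, used only where no silent move is defined -/
  read : Q → Γ → α → Option (Q × List Γ)
  /-- accepting states -/
  acc : Set Q

/-- `M.Run w q γ q' γ'`: from state `q` and stack `γ` the automaton can read exactly the word `w`
and be in state `q'` with stack `γ'`. -/
inductive DPDA.Run {α Q Γ : Type} (M : DPDA α Q Γ) :
    List α → Q → List Γ → Q → List Γ → Prop
  | refl (q : Q) (γ : List Γ) : M.Run [] q γ q γ
  | silent {q : Q} {X : Γ} {q₁ : Q} {β : List Γ} {w : List α} {γ : List Γ} {q' : Q}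
      {γ' : List Γ} (h : M.eps q X = some (q₁, β)) (hr : M.Run w q₁ (β ++ γ) q' γ') :
      M.Run w q (X :: γ) q' γ'
  | letter {q : Q} {X : Γ} {a : α} {q₁ : Q} {β : List Γ} {w : List α} {γ : List Γ} {q' : Q}
      {γ' : List Γ} (h : M.eps q X = none) (h' : M.read q X a = some (q₁, β))
      (hr : M.Run w q₁ (β ++ γ) q' γ') : M.Run (a :: w) q (X :: γ) q' γ'

/-- `M` started in state `q` with stack `γ` accepts `w`: it can read `w` and be in an accepting
state. -/
def DPDA.Accepts {α Q Γ : Type} (M : DPDA α Q Γ) (q : Q) (γ : List Γ) (w : List α) : Prop :=
  ∃ q' γ', M.Run w q γ q' γ' ∧ q' ∈ M.acc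

/-- The words accepted after a guess: `w` is accepted from some state `q` and some stack in the
set `I q`. -/
def DPDA.guessLang {α Q Γ : Type} (M : DPDA α Q Γ) (I : Q → Language Γ) : Language α :=
  {w | ∃ q, ∃ γ ∈ I q, M.Accepts q γ w}

end Pool.Agent.IGP
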