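import Pool.Agent.Lib_helper6.IGP.Pump

/-!
# Torsion orders when the coword problem is deterministic after a guess of the initial stack
-/

set_option autoImplicit false
set_option linter.unusedSectionVars false

namespace Pool.Agent.IGP

open CoCF

variable {α Q Γ S : Type}

theorem rotate_fac {n : ℕ} [NeZero n] (a : ZMod n → α) (N j : ℕ) :
    (fac a 0 (n * N)).rotate j = fac a ((j : ℕ) : ZMod n) (n * N) := by
  apply List.ext_getElem
  · rw [List.length_rotate, length_fac, length_fac]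
  · intro t h1 h2
    rw [List.getElem_rotate]
    simp only [fac, List.getElem_map, List.getElem_range, zero_add, List.length_map,
      List.length_range]
    congr 1
    have h3 : (((t + j) % (n * N) : ℕ) : ZMod n) = ((t + j : ℕ) : ZMod n) := by
      rw [ZMod.natCast_eq_natCast_iff]
      exact Nat.ModEq.of_mul_right N (Nat.mod_modEq _ _)
    rw [h3]
    push_cast
    ring

theorem prime_pow_dvd_lcm {p v a b : ℕ} (hp : p.Prime) (h : p ^ v ∣ Nat.lcm a b) :
    p ^ v ∣ a ∨ p ^ v ∣ b := by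
  rcases Nat.eq_zero_or_pos a with ha | ha
  · exact Or.inl (by rw [ha]; exact dvd_zero _)
  rcases Nat.eq_zero_or_pos b with hb | hb
  · exact Or.inr (by rw [hb]; exact dvd_zero _)
  have hl : Nat.lcm a b ≠ 0 := Nat.lcm_ne_zero ha.ne' hb.ne'
  rw [hp.pow_dvd_iff_le_factorization hl, Nat.factorization_lcm ha.ne' hb.ne',
    Finsupp.sup_apply, le_sup_iff] at h
  rw [hp.pow_dvd_iff_le_factorization ha.ne', hp.pow_dvd_iff_le_factorization hb.ne']
  exact h

theorem prime_pow_dvd_finset_lcm {X : Type} [DecidableEq X] {p v : ℕ} (hp : p.Prime) (hv : v ≠ 0)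
    (s : Finset X) (e : X → ℕ) (h : p ^ v ∣ s.lcm e) : ∃ x ∈ s, p ^ v ∣ e x := by
  induction s using Finset.induction_on with
  | empty =>
    rw [Finset.lcm_empty] at h
    exfalso
    have h1 : p ∣ 1 := (dvd_pow_self p hv).trans h
    exact hp.one_lt.ne' (Nat.dvd_one.1 h1)
  | insert x s _ ih =>
    rw [Finset.lcm_insert] at h
    rcases prime_pow_dvd_lcm hp (show p ^ v ∣ Nat.lcm (e x) (s.lcm e) from h) with h1 | h1
    · exact ⟨x, Finset.mem_insert_self _ _, h1⟩
    · obtain ⟨y, hy, h2⟩ := ih h1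
      exact ⟨y, Finset.mem_insert_of_mem hy, h2⟩

theorem key {G : Type} [Group G] (f : α → G) (M : DPDA α Q Γ) (D : DFA Γ S) {ι : Type}
    [Finite ι] (σ₀ : ι → Q → S) (Φ : Set (ι × ℕ) → Prop) (hΦ : Monotone Φ)
    (hiff : ∀ w : List α, (w.map f).prod ≠ 1 ↔ Φ {x : ι × ℕ | ∃ q γ,
      D.evalFrom (σ₀ x.1 q) γ ∈ D.accept ∧ M.Accepts q γ (w.rotate x.2)})
    [Fintype Q] [Fintype Γ] [Fintype S] {B : ℕ} (hB : PushBound M B)
    (w : List α) [NeZero w.length] (hw : IsOfFinOrder (w.map f).prod)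
    {T : ℕ} (hT : T = 1 + (B + 1) * (B + 1) ^ (Nat.card Q * Nat.card Γ * w.length))
    {K : ℕ} (hK : K = Fintype.card (Q × ZMod w.length × S) +
      Fintype.card (Q × Γ × ZMod w.length)) :
    ∃ c : (Q × ZMod w.length × S) ⊕ (Q × Γ × ZMod w.length) → ℕ,
      (∀ τ, 0 < c τ ∧ c τ ≤ K * T + 1) ∧
      ∀ p, p.Prime → p ∣ orderOf (w.map f).prod →
        ∃ τ, p ^ ((orderOf (w.map f).prod).factorization p) ∣ c τ := by
  classical
  have : Fintype ι := Fintype.ofFinite ι
  set n := w.length with hn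
  set a : ZMod n → α := fun i => w.get ⟨i.val, ZMod.val_lt i⟩ with ha
  set γ := (w.map f).prod with hγ
  set m := orderOf γ with hm
  have hm0 : 0 < m := hw.orderOf_pos
  have hn0 : 0 < n := Nat.pos_of_ne_zero (NeZero.ne n)
  have hfac : fac a 0 n = w := fac_word w
  have hprod : ∀ j : ℕ, ((fac a 0 (n * j)).map f).prod ≠ 1 ↔ ¬ m ∣ j := by
    intro j
    rw [prod_fac, hfac, hm, orderOf_dvd_iff_pow_eq_one]
  let c : (Q × ZMod n × S) ⊕ (Q × Γ × ZMod n) → ℕ := fun τ =>
    if h : ∃ d, 0 < d ∧ d ≤ K * T ∧ LoopAt M D a τ d then h.choose else 1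
  refine ⟨c, ?_, ?_⟩
  · intro τ
    by_cases h : ∃ d, 0 < d ∧ d ≤ K * T ∧ LoopAt M D a τ d
    · have h1 : c τ = h.choose := dif_pos h
      rw [h1]
      have := h.choose_spec
      exact ⟨this.1, by omega⟩
    · have h1 : c τ = 1 := dif_neg h
      rw [h1]
      omega
  · intro p hp hpm
    set k := m / p * (1 + p * (K * T)) with hk
    have hmp : 0 < m / p := Nat.div_pos (Nat.le_of_dvd hm0 hpm) hp.pos
    have hmk : ¬ m ∣ k := by
      intro h
      have h1 : m = p * (m / p) := (Nat.mul_div_cancel' hpm).symm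
      rw [hk] at h
      nth_rewrite 1 [h1] at h
      rw [mul_comm p (m / p)] at h
      have h2 := Nat.dvd_of_mul_dvd_mul_left hmp h
      have h3 : p ∣ 1 := by
        have h4 : p ∣ p * (K * T) := Dvd.intro _ rfl
        exact (Nat.dvd_add_left h4).mp h2
      exact hp.one_lt.ne' (Nat.dvd_one.mp h3)
    have hlarge : K * T < n * k := by
      have h1 : K * T < 1 + p * (K * T) := by
        have := Nat.le_mul_of_pos_left (K * T) hp.pos
        omega
      have h2 : 1 + p * (K * T) ≤ k := Nat.le_mul_of_pos_left _ hmp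
      have h3 : k ≤ n * k := Nat.le_mul_of_pos_left _ hn0
      omega
    -- membership of the rotations of the powers of `w`
    let P : ι × ZMod n → ℕ → Prop := fun x N => ∃ q γ,
      D.evalFrom (σ₀ x.1 q) γ ∈ D.accept ∧ M.Accepts q γ (fac a x.2 (n * N))
    have hP : ∀ N, {x : ι × ℕ | ∃ q γ, D.evalFrom (σ₀ x.1 q) γ ∈ D.accept ∧
        M.Accepts q γ ((fac a 0 (n * N)).rotate x.2)} =
        {x : ι × ℕ | P (x.1, ((x.2 : ℕ) : ZMod n)) N} := by
      intro N
      ext x
      simp only [Set.mem_ofPred_eq, rotate_fac, P]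
    have hpump : ∀ x, P x k → ∃ τ, ∃ e, c τ = n * e ∧ ∀ r, P x (k + r * e) := by
      rintro ⟨s, i⟩ ⟨q, y, hy, q', γ', hrun, hacc⟩
      have hA : Acc M D a (q, i, σ₀ s q) (n * k) := ⟨y, hy, q', γ', hrun, hacc⟩
      obtain ⟨τ, hex, hpump⟩ := pumping hB hT hK hA hlarge
      have hc : c τ = hex.choose := dif_pos hex
      obtain ⟨hd0, hd1, hd2⟩ := hex.choose_spec
      obtain ⟨c', hc'⟩ := loopAt_dvd hd2
      refine ⟨τ, c', by rw [hc, hc'], fun r => ?_⟩
      obtain ⟨x', hx', q'', γ'', hrun', hacc'⟩ := hpump _ hd2 r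
      have h1 : n * k + r * hex.choose = n * (k + r * c') := by rw [hc']; ring
      rw [h1] at hrun'
      exact ⟨q, x', hx', q'', γ'', hrun', hacc'⟩
    choose! τ e hτe hPe using hpump
    let e' : ι × ZMod n → ℕ := fun x => if P x k then e x else 1
    set l := (Finset.univ : Finset (ι × ZMod n)).lcm e' with hl
    have hall : ∀ r : ℕ, ¬ m ∣ k + r * l := by
      intro r
      rw [← hprod, hiff, hP]
      have h1 := (hiff _).1 ((hprod k).mpr hmk)
      rw [hP] at h1
      refine hΦ ?_ h1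
      intro x hx
      have hx' : P (x.1, ((x.2 : ℕ) : ZMod n)) k := hx
      have h2 : e (x.1, ((x.2 : ℕ) : ZMod n)) ∣ l := by
        have h3 : e' (x.1, ((x.2 : ℕ) : ZMod n)) ∣ l := Finset.dvd_lcm (Finset.mem_univ _)
        have h4 : e' (x.1, ((x.2 : ℕ) : ZMod n)) = e (x.1, ((x.2 : ℕ) : ZMod n)) := if_pos hx'
        rwa [h4] at h3
      obtain ⟨y, hy⟩ := h2
      have h5 := hPe _ hx' (r * y)
      have h6 : k + r * l = k + r * y * e (x.1, ((x.2 : ℕ) : ZMod n)) := by rw [hy]; ring
      change P (x.1, ((x.2 : ℕ) : ZMod n)) (k + r * l)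
      rw [h6]
      exact h5
    have h5 := prime_pow_dvd hm0 hp hall
    have hv : m.factorization p ≠ 0 := by
      have := (hp.dvd_iff_one_le_factorization hm0.ne').1 hpm
      omega
    obtain ⟨x, _, hx⟩ := prime_pow_dvd_finset_lcm hp hv _ _ h5
    by_cases hPx : P x k
    · refine ⟨τ x hPx, ?_⟩
      have h6 : e' x = e x := if_pos hPx
      rw [h6] at hx
      rw [hτe x hPx]
      exact hx.trans (Dvd.intro_left _ rfl)
    · exfalso
      have h6 : e' x = 1 := if_neg hPx
      rw [h6] at hx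
      have h7 : p ∣ 1 := (dvd_pow_self p hv).trans hx
      exact hp.one_lt.ne' (Nat.dvd_one.1 h7)

theorem exists_pushBound {k : ℕ} [Finite Q] [Finite Γ] (M : DPDA (Fin k) Q Γ) :
    ∃ B, PushBound M B := by
  classical
  have : Fintype Q := Fintype.ofFinite Q
  have : Fintype Γ := Fintype.ofFinite Γ
  let len : Option (Q × List Γ) → ℕ := fun o => o.elim 0 (fun x => x.2.length)
  refine ⟨(Finset.univ.sup fun x : Q × Γ => len (M.eps x.1 x.2)) +
    (Finset.univ.sup fun x : Q × Γ × Fin k => len (M.read x.1 x.2.1 x.2.2)), ?_, ?_⟩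
  · intro q X q₁ β h
    have h1 : len (M.eps q X) ≤ Finset.univ.sup fun x : Q × Γ => len (M.eps x.1 x.2) :=
      Finset.le_sup (f := fun x : Q × Γ => len (M.eps x.1 x.2)) (Finset.mem_univ (q, X))
    rw [h] at h1
    exact h1.trans (Nat.le_add_right _ _)
  · intro q X b q₁ β h
    have h1 : len (M.read q X b) ≤
        Finset.univ.sup fun x : Q × Γ × Fin k => len (M.read x.1 x.2.1 x.2.2) :=
      Finset.le_sup (f := fun x : Q × Γ × Fin k => len (M.read x.1 x.2.1 x.2.2))
        (Finset.mem_univ (q, X, b))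
    rw [h] at h1
    exact h1.trans (Nat.le_add_left _ _)

/-- a common automaton for finitely many regular languages -/
theorem common_dfa (I : Q → Language Γ) [Finite Q] (hI : ∀ q, (I q).IsRegular) :
    ∃ (S : Type) (_ : Fintype S) (D : DFA Γ S) (σ₀ : Q → S),
      ∀ q γ, D.evalFrom (σ₀ q) γ ∈ D.accept ↔ γ ∈ I q := by
  classical
  have : Fintype Q := Fintype.ofFinite Q
  choose σ hσ M hM using hI
  let D : DFA Γ (Option (Σ q, σ q)) :=
    { step := fun s X => s.map fun x => ⟨x.1, (M x.1).step x.2 X⟩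
      start := none
      accept := {s | ∃ q, ∃ x ∈ (M q).accept, s = some ⟨q, x⟩} }
  refine ⟨Option (Σ q, σ q), inferInstance, D, fun q => some ⟨q, (M q).start⟩, ?_⟩
  have h1 : ∀ (q : Q) (γ : List Γ) (s : σ q), D.evalFrom (some ⟨q, s⟩) γ =
      some ⟨q, (M q).evalFrom s γ⟩ := by
    intro q γ
    induction γ with
    | nil => intro s; rfl
    | cons X γ ih => intro s; exact ih _
  intro q γ
  rw [h1, ← hM q, DFA.mem_accepts]
  change (∃ q', ∃ x ∈ (M q').accept, some (⟨q, (M q).eval γ⟩ : Σ q, σ q) = some ⟨q', x⟩) ↔ _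
  constructor
  · rintro ⟨q', x, hx, h⟩
    rw [Option.some.injEq, Sigma.mk.injEq] at h
    obtain ⟨rfl, h⟩ := h
    rw [eq_of_heq h]
    exact hx
  · intro h
    exact ⟨q, _, h, rfl⟩

/-- **Main theorem of this library.** -/
theorem main {G : Type} [Group G] {k : ℕ} (f : Fin k → G) [Finite Q] [Finite Γ] {ι : Type}
    [Finite ι] (M : DPDA (Fin k) Q Γ) (I : ι → Q → Language Γ) (hI : ∀ s q, (I s q).IsRegular)
    (Φ : Set (ι × ℕ) → Prop) (hΦ : Monotone Φ)
    (hiff : ∀ w : List (Fin k), (w.map f).prod ≠ 1 ↔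
      Φ {x : ι × ℕ | w.rotate x.2 ∈ M.guessLang (I x.1)}) :
    ∃ C : ℕ, ∀ w : List (Fin k), IsOfFinOrder (w.map f).prod →
      (∀ p e : ℕ, p.Prime → p ^ e ∣ orderOf (w.map f).prod → p ^ e ≤ 2 ^ (C * w.length)) ∧
      orderOf (w.map f).prod ≤ 2 ^ (C * w.length ^ 2) := by
  classical
  have : Fintype Q := Fintype.ofFinite Q
  have : Fintype Γ := Fintype.ofFinite Γ
  obtain ⟨B, hB⟩ := exists_pushBound M
  obtain ⟨S, _, D, σ₀, hD⟩ := common_dfa (fun x : ι × Q => I x.1 x.2) (fun x => hI x.1 x.2)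
  set A := Nat.card Q * Nat.card Γ with hA
  set R := Fintype.card Q * Fintype.card S + Fintype.card Q * Fintype.card Γ with hR
  set C₁ := R + B * (A + 1) + 2 with hC₁
  refine ⟨C₁ + C₁ * R, fun w hw => ?_⟩
  rcases Nat.eq_zero_or_pos w.length with h0 | h0
  · have hw0 : w = [] := List.length_eq_zero_iff.mp h0
    subst hw0
    simp only [List.map_nil, List.prod_nil, orderOf_one, List.length_nil]
    refine ⟨fun p e _ h => ?_, by simp⟩
    have : p ^ e = 1 := Nat.dvd_one.mp h
    rw [this]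
    exact Nat.one_le_two_pow
  · have : NeZero w.length := ⟨h0.ne'⟩
    set T := 1 + (B + 1) * (B + 1) ^ (Nat.card Q * Nat.card Γ * w.length) with hT
    set K := Fintype.card (Q × ZMod w.length × S) + Fintype.card (Q × Γ × ZMod w.length) with hK
    have hiff' : ∀ w : List (Fin k), (w.map f).prod ≠ 1 ↔ Φ {x : ι × ℕ | ∃ q γ,
        D.evalFrom (σ₀ (x.1, q)) γ ∈ D.accept ∧ M.Accepts q γ (w.rotate x.2)} := by
      intro w
      rw [hiff w]
      have : {x : ι × ℕ | w.rotate x.2 ∈ M.guessLang (I x.1)} = {x : ι × ℕ | ∃ q γ,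
          D.evalFrom (σ₀ (x.1, q)) γ ∈ D.accept ∧ M.Accepts q γ (w.rotate x.2)} := by
        ext x
        simp only [Set.mem_ofPred_eq, hD]
        rfl
      rw [this]
    obtain ⟨c, hc, hdvd⟩ := key f M D (fun s q => σ₀ (s, q)) Φ hΦ hiff' hB w hw hT hK
    have hK' : K = R * w.length := by
      rw [hK, hR]
      simp only [Fintype.card_prod, ZMod.card]
      ring
    have hm0 : orderOf (w.map f).prod ≠ 0 := hw.orderOf_pos.ne'
    have hpe : ∀ p e : ℕ, p.Prime → p ^ e ∣ orderOf (w.map f).prod → e ≠ 0 →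
        ∃ τ, p ^ e ∣ c τ := by
      intro p e hp hpe he
      have hpm : p ∣ orderOf (w.map f).prod := (dvd_pow_self p he).trans hpe
      obtain ⟨τ, h⟩ := hdvd p hp hpm
      refine ⟨τ, (pow_dvd_pow p ?_).trans h⟩
      exact (hp.pow_dvd_iff_le_factorization hm0).mp hpe
    have hsmall : K * T + 1 ≤ 2 ^ (C₁ * w.length) := by
      have e1 : B + 1 ≤ 2 ^ B := Nat.lt_two_pow_self
      have e2 : (B + 1) * (B + 1) ^ (A * w.length) ≤ 2 ^ (B * (A + 1) * w.length) := by
        calc (B + 1) * (B + 1) ^ (A * w.length) = (B + 1) ^ (A * w.length + 1) := by ring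
          _ ≤ (2 ^ B) ^ (A * w.length + 1) := Nat.pow_le_pow_left e1 _
          _ = 2 ^ (B * (A * w.length + 1)) := by rw [← pow_mul]
          _ ≤ 2 ^ (B * (A + 1) * w.length) := by
              apply Nat.pow_le_pow_right (by norm_num)
              nlinarith [Nat.zero_le (B * A), Nat.zero_le B,
                Nat.mul_le_mul_left B h0]
      have e3 : T ≤ 2 ^ (B * (A + 1) * w.length + 1) := by
        rw [hT, pow_succ]
        have : 1 ≤ 2 ^ (B * (A + 1) * w.length) := Nat.one_le_two_pow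
        have e2' := e2
        rw [hA] at e2'
        rw [hA]
        rw [hA] at this
        omega
      have e4 : K ≤ 2 ^ (R * w.length) := by
        rw [hK']
        exact Nat.lt_two_pow_self.le
      calc K * T + 1 ≤ 2 ^ (R * w.length) * 2 ^ (B * (A + 1) * w.length + 1) + 1 :=
            Nat.add_le_add_right (Nat.mul_le_mul e4 e3) 1
        _ ≤ 2 ^ (R * w.length) * 2 ^ (B * (A + 1) * w.length + 1) * 2 := by
            have : 1 ≤ 2 ^ (R * w.length) * 2 ^ (B * (A + 1) * w.length + 1) :=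
              Nat.one_le_iff_ne_zero.2 (by positivity)
            omega
        _ = 2 ^ (R * w.length + (B * (A + 1) * w.length + 1) + 1) := by
            rw [← pow_add, ← pow_succ]
        _ ≤ 2 ^ (C₁ * w.length) := by
            apply Nat.pow_le_pow_right (by norm_num)
            rw [hC₁]
            have : 1 ≤ w.length := h0
            nlinarith
    constructor
    · intro p e hp hd
      rcases Nat.eq_zero_or_pos e with he | he
      · subst he
        rw [pow_zero]
        exact Nat.one_le_two_pow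
      · obtain ⟨τ, h⟩ := hpe p e hp hd he.ne'
        refine (Nat.le_of_dvd (hc τ).1 h).trans (((hc τ).2.trans hsmall).trans ?_)
        apply Nat.pow_le_pow_right (by norm_num)
        exact Nat.mul_le_mul_right _ (Nat.le_add_right _ _)
    · have h1 : orderOf (w.map f).prod ∣ ∏ τ, c τ := by
        rw [Nat.dvd_iff_prime_pow_dvd_dvd]
        intro p e hp hd
        rcases Nat.eq_zero_or_pos e with he | he
        · subst he
          simp
        · obtain ⟨τ, h⟩ := hpe p e hp hd he.ne'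
          exact h.trans (Finset.dvd_prod_of_mem c (Finset.mem_univ τ))
      have h2 : 0 < ∏ τ, c τ := Finset.prod_pos fun τ _ => (hc τ).1
      refine (Nat.le_of_dvd h2 h1).trans ?_
      refine (Finset.prod_le_pow_card _ _ _ fun τ _ => (hc τ).2.trans hsmall).trans ?_
      rw [Finset.card_univ, Fintype.card_sum, ← hK, hK', ← pow_mul]
      apply Nat.pow_le_pow_right (by norm_num)
      calc C₁ * w.length * (R * w.length) = C₁ * R * w.length ^ 2 := by ring
        _ ≤ (C₁ + C₁ * R) * w.length ^ 2 := Nat.mul_le_mul_right _ (Nat.le_add_left _ _)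

end Pool.Agent.IGP
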