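import Pool.Agent.Lib_helper6.IGP.Runs

/-!
# The number of letters read in a complete pop is at most exponential
-/

set_option autoImplicit false
set_option linter.unusedSectionVars false

namespace Pool.Agent.IGP

open CoCF

variable {α Q Γ : Type} {M : DPDA α Q Γ} {n : ℕ} {a : ZMod n → α}

/-- complete pops along the periodic word `a`, with bounded height -/
inductive PD (M : DPDA α Q Γ) (a : ZMod n → α) : ℕ → ZMod n → ℕ → Q → List Γ → Q → Prop
  | nil (h : ℕ) (i : ZMod n) (q : Q) : PD M a h i 0 q [] q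
  | silent {h : ℕ} {i : ZMod n} {l l' : ℕ} {q : Q} {X : Γ} {q₁ : Q} {β γ : List Γ} {q₂ q₃ : Q}
      (he : M.eps q X = some (q₁, β)) (h1 : PD M a h i l q₁ β q₂)
      (h2 : PD M a (h + 1) (i + (l : ZMod n)) l' q₂ γ q₃) :
      PD M a (h + 1) i (l + l') q (X :: γ) q₃
  | letter {h : ℕ} {i : ZMod n} {l l' : ℕ} {q : Q} {X : Γ} {q₁ : Q} {β γ : List Γ} {q₂ q₃ : Q}
      (he : M.eps q X = none) (hr : M.read q X (a i) = some (q₁, β))
      (h1 : PD M a h (i + 1) l q₁ β q₂)
      (h2 : PD M a (h + 1) (i + ((1 + l : ℕ) : ZMod n)) l' q₂ γ q₃) :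
      PD M a (h + 1) i (1 + l + l') q (X :: γ) q₃

theorem fac_one_add (i : ZMod n) (ℓ : ℕ) : fac a i (1 + ℓ) = a i :: fac a (i + 1) ℓ := by
  rw [add_comm, fac_succ]

theorem PD.run {h : ℕ} {i : ZMod n} {l : ℕ} {q : Q} {β : List Γ} {q' : Q}
    (hp : PD M a h i l q β q') : M.Run (fac a i l) q β q' [] := by
  induction hp with
  | nil h i q => exact DPDA.Run.refl q []
  | @silent h i l l' q X q₁ β γ q₂ q₃ he h1 h2 ih1 ih2 =>
    rw [fac_add]
    refine DPDA.Run.silent he ?_
    have := run_frame ih1 γ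
    rw [List.nil_append] at this
    exact run_trans this ih2
  | @letter h i l l' q X q₁ β γ q₂ q₃ he hr h1 h2 ih1 ih2 =>
    rw [fac_add, fac_one_add, List.cons_append]
    refine DPDA.Run.letter he hr ?_
    have := run_frame ih1 γ
    rw [List.nil_append] at this
    exact run_trans this ih2

theorem PD.mono {h : ℕ} {i : ZMod n} {l : ℕ} {q : Q} {β : List Γ} {q' : Q}
    (hp : PD M a h i l q β q') : ∀ h', h ≤ h' → PD M a h' i l q β q' := by
  induction hp with
  | nil h i q => intro h' _; exact PD.nil h' i q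
  | @silent h i l l' q X q₁ β γ q₂ q₃ he h1 h2 ih1 ih2 =>
    intro h' hh
    obtain ⟨k, rfl⟩ : ∃ k, h' = k + 1 := ⟨h' - 1, by omega⟩
    exact PD.silent he (ih1 k (by omega)) (ih2 (k + 1) hh)
  | @letter h i l l' q X q₁ β γ q₂ q₃ he hr h1 h2 ih1 ih2 =>
    intro h' hh
    obtain ⟨k, rfl⟩ : ∃ k, h' = k + 1 := ⟨h' - 1, by omega⟩
    exact PD.letter he hr (ih1 k (by omega)) (ih2 (k + 1) hh)

theorem runN_pd (t : ℕ) : ∀ (i : ZMod n) (l : ℕ) (q : Q) (β : List Γ) (q' : Q),
    RunN M t (fac a i l) q β q' [] → PD M a t i l q β q' := by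
  induction t using Nat.strong_induction_on with
  | _ t IH =>
    intro i l q β q' hr
    cases β with
    | nil =>
      obtain ⟨h1, h2, _⟩ := runN_nil hr
      have : l = 0 := by
        have := congrArg List.length h1
        rwa [length_fac, List.length_nil] at this
      subst this
      rw [h2]
      exact PD.nil t i q
    | cons X γ =>
      generalize hw : fac a i l = w at hr
      cases hr with
      | @silent t _ _ q₁ β _ _ _ _ he hr2 =>
        subst hw
        rcases runN_split hr2 β γ rfl with ⟨δ, h1, h2, _⟩ | ⟨t₁, t₂, u, v, q₂, h1, h2, h3, h4⟩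
        · exfalso
          apply h1
          have := congrArg List.length h2
          rw [List.length_append, List.length_nil] at this
          exact List.length_eq_zero_iff.1 (by omega)
        · obtain ⟨l1, l2, rfl, rfl, rfl⟩ := fac_split h2
          exact PD.silent he ((IH t₁ (by omega) _ _ _ _ _ h3).mono t (by omega))
            ((IH t₂ (by omega) _ _ _ _ _ h4).mono (t + 1) (by omega))
      | @letter t _ _ b q₁ β w _ _ _ he he' hr2 =>
        obtain ⟨l₀, rfl⟩ : ∃ l₀, l = 1 + l₀ := by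
          have := congrArg List.length hw
          rw [length_fac, List.length_cons] at this
          exact ⟨l - 1, by omega⟩
        rw [fac_one_add, List.cons.injEq] at hw
        obtain ⟨rfl, rfl⟩ := hw
        rcases runN_split hr2 β γ rfl with ⟨δ, h1, h2, _⟩ | ⟨t₁, t₂, u, v, q₂, h1, h2, h3, h4⟩
        · exfalso
          apply h1
          have := congrArg List.length h2
          rw [List.length_append, List.length_nil] at this
          exact List.length_eq_zero_iff.1 (by omega)
        · obtain ⟨l1, l2, rfl, rfl, rfl⟩ := fac_split h2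
          rw [← add_assoc]
          refine PD.letter he he' ((IH t₁ (by omega) _ _ _ _ _ h3).mono t (by omega)) ?_
          have : i + ((1 + l1 : ℕ) : ZMod n) = i + 1 + (l1 : ZMod n) := by push_cast; ring
          rw [this]
          exact (IH t₂ (by omega) _ _ _ _ _ h4).mono (t + 1) (by omega)

theorem run_pd {i : ZMod n} {l : ℕ} {q : Q} {β : List Γ} {q' : Q}
    (hr : M.Run (fac a i l) q β q' []) : ∃ h, PD M a h i l q β q' := by
  obtain ⟨t, ht⟩ := run_runN hr
  exact ⟨t, runN_pd t i l q β q' ht⟩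

/-- all stack words which are pushed by a move have length at most `B` -/
def PushBound (M : DPDA α Q Γ) (B : ℕ) : Prop :=
  (∀ q X q₁ β, M.eps q X = some (q₁, β) → β.length ≤ B) ∧
  (∀ q X b q₁ β, M.read q X b = some (q₁, β) → β.length ≤ B)

theorem PD.le {B : ℕ} (hB : PushBound M B) {h : ℕ} {i : ZMod n} {l : ℕ} {q : Q} {β : List Γ}
    {q' : Q} (hp : PD M a h i l q β q') : l ≤ β.length * (B + 1) ^ h := by
  induction hp with
  | nil h i q => simp
  | @silent h i l l' q X q₁ β γ q₂ q₃ he h1 h2 ih1 ih2 =>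
    have h3 := hB.1 _ _ _ _ he
    have h4 : 0 < (B + 1) ^ h := by positivity
    have h5 : β.length * (B + 1) ^ h ≤ B * (B + 1) ^ h := Nat.mul_le_mul_right _ h3
    rw [List.length_cons]
    calc l + l' ≤ B * (B + 1) ^ h + γ.length * (B + 1) ^ (h + 1) := by omega
      _ ≤ (B + 1) ^ (h + 1) + γ.length * (B + 1) ^ (h + 1) := by
          rw [pow_succ (B + 1) h]; nlinarith
      _ = (γ.length + 1) * (B + 1) ^ (h + 1) := by ring
  | @letter h i l l' q X q₁ β γ q₂ q₃ he hr h1 h2 ih1 ih2 =>
    have h3 := hB.2 _ _ _ _ _ hr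
    have h4 : 0 < (B + 1) ^ h := by positivity
    have h5 : β.length * (B + 1) ^ h ≤ B * (B + 1) ^ h := Nat.mul_le_mul_right _ h3
    rw [List.length_cons]
    calc 1 + l + l' ≤ 1 + B * (B + 1) ^ h + γ.length * (B + 1) ^ (h + 1) := by omega
      _ ≤ (B + 1) ^ (h + 1) + γ.length * (B + 1) ^ (h + 1) := by
          rw [pow_succ (B + 1) h]; nlinarith
      _ = (γ.length + 1) * (B + 1) ^ (h + 1) := by ring

theorem PD.append {h : ℕ} {i : ZMod n} {l : ℕ} {q : Q} {β : List Γ} {q₁ : Q}
    (h1 : PD M a h i l q β q₁) : ∀ {l' : ℕ} {γ : List Γ} {q₂ : Q},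
    PD M a h (i + (l : ZMod n)) l' q₁ γ q₂ → PD M a h i (l + l') q (β ++ γ) q₂ := by
  induction h1 with
  | nil h i q =>
    intro l' γ q₂ h2
    rw [Nat.cast_zero, add_zero] at h2
    rw [zero_add]
    exact h2
  | @silent h i l l' q X q₁ β γ q₂ q₃ he h1 h2 ih1 ih2 =>
    intro l'' γ' q₄ h3
    rw [add_assoc, List.cons_append]
    refine PD.silent he h1 (ih2 ?_)
    have : i + ((l + l' : ℕ) : ZMod n) = i + (l : ZMod n) + (l' : ZMod n) := by push_cast; ring
    rwa [← this]
  | @letter h i l l' q X q₁ β γ q₂ q₃ he hr h1 h2 ih1 ih2 =>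
    intro l'' γ' q₄ h3
    rw [add_assoc, List.cons_append]
    refine PD.letter he hr h1 (ih2 ?_)
    have : i + ((1 + l + l' : ℕ) : ZMod n) = i + ((1 + l : ℕ) : ZMod n) + (l' : ZMod n) := by
      push_cast; ring
    rwa [← this]

/-- the height of pops stabilizes -/
theorem PD.down {h : ℕ} (hs : ∀ (i : ZMod n) (l : ℕ) (q : Q) (X : Γ) (q' : Q),
    PD M a (h + 1) i l q [X] q' → ∃ l' q'', PD M a h i l' q [X] q'') (β : List Γ) :
    ∀ {i : ZMod n} {l : ℕ} {q q' : Q}, PD M a (h + 1) i l q β q' → PD M a h i l q β q' := by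
  induction β with
  | nil =>
    intro i l q q' hp
    cases hp
    exact PD.nil h i q
  | cons X γ ih =>
    intro i l q q' hp
    have key : ∃ l₁ l₂ q₂, l = l₁ + l₂ ∧ PD M a (h + 1) i l₁ q [X] q₂ ∧
        PD M a (h + 1) (i + (l₁ : ZMod n)) l₂ q₂ γ q' := by
      cases hp with
      | @silent _ _ l l' _ _ q₁ β _ q₂ _ he h1 h2 =>
        exact ⟨l, l', q₂, rfl, PD.silent (l' := 0) he h1 (PD.nil _ _ _), h2⟩
      | @letter _ _ l l' _ _ q₁ β _ q₂ _ he hr h1 h2 =>
        exact ⟨1 + l, l', q₂, rfl, PD.letter (l' := 0) he hr h1 (PD.nil _ _ _), h2⟩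
    obtain ⟨l₁, l₂, q₂, rfl, h1, h2⟩ := key
    obtain ⟨l', q'', h3⟩ := hs _ _ _ _ _ h1
    obtain ⟨h4, h5⟩ := pop_det h1.run h3.run
    subst h4 h5
    exact h3.append (ih h2)

/-- the types which can be popped with height at most `h` -/
def Popable (M : DPDA α Q Γ) (a : ZMod n → α) (h : ℕ) : Set (Q × Γ × ZMod n) :=
  {τ | ∃ l q', PD M a h τ.2.2 l τ.1 [τ.2.1] q'}

theorem popable_mono (h : ℕ) : Popable M a h ⊆ Popable M a (h + 1) := by
  rintro τ ⟨l, q', hp⟩
  exact ⟨l, q', hp.mono _ (Nat.le_succ h)⟩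

theorem popable_stable {h : ℕ} (hs : Popable M a (h + 1) ⊆ Popable M a h) :
    Popable M a (h + 2) ⊆ Popable M a (h + 1) := by
  have hs' : ∀ (i : ZMod n) (l : ℕ) (q : Q) (X : Γ) (q' : Q),
      PD M a (h + 1) i l q [X] q' → ∃ l' q'', PD M a h i l' q [X] q'' := by
    intro i l q X q' hp
    exact hs (show (q, X, i) ∈ Popable M a (h + 1) from ⟨l, q', hp⟩)
  rintro ⟨q, X, i⟩ ⟨l, q', hp⟩
  change PD M a (h + 2) i l q [X] q' at hp
  cases hp with
  | @silent _ _ l l' _ _ q₁ β _ q₂ _ he h1 h2 =>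
    cases h2
    exact ⟨l + 0, _, PD.silent he (PD.down hs' β h1) (PD.nil _ _ _)⟩
  | @letter _ _ l l' _ _ q₁ β _ q₂ _ he hr h1 h2 =>
    cases h2
    exact ⟨1 + l + 0, _, PD.letter he hr (PD.down hs' β h1) (PD.nil _ _ _)⟩

theorem popable_zero : Popable M a 0 = ∅ := by
  ext ⟨q, X, i⟩
  simp only [Set.mem_empty_iff_false, iff_false]
  rintro ⟨l, q', hp⟩
  cases hp

variable [Finite Q] [Finite Γ] [NeZero n]

theorem popable_card (h : ℕ) : h ≤ (Popable M a h).ncard ∨
    Popable M a (h + 1) ⊆ Popable M a h := by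
  induction h with
  | zero => exact Or.inl (Nat.zero_le _)
  | succ h ih =>
    by_cases hs : Popable M a (h + 1) ⊆ Popable M a h
    · exact Or.inr (popable_stable hs)
    · rcases ih with h1 | h1
      · left
        have : (Popable M a h).ncard < (Popable M a (h + 1)).ncard :=
          Set.ncard_lt_ncard ⟨popable_mono h, hs⟩ (Set.toFinite _)
        omega
      · exact absurd h1 hs

/-- **Pop bound.** -/
theorem pop_bound {B : ℕ} (hB : PushBound M B) {i : ZMod n} {l : ℕ} {q : Q} {X : Γ} {q' : Q}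
    (hr : M.Run (fac a i l) q [X] q' []) :
    l ≤ (B + 1) ^ (Nat.card Q * Nat.card Γ * n) := by
  classical
  set N := Nat.card Q * Nat.card Γ * n with hN
  have hcard : Nat.card (Q × Γ × ZMod n) = N := by
    rw [Nat.card_prod, Nat.card_prod, Nat.card_zmod, hN, mul_assoc]
  have hfull : ∀ h, (Popable M a h).ncard ≤ N := by
    intro h
    rw [← hcard, ← Set.ncard_univ]
    exact Set.ncard_le_ncard (Set.subset_univ _) (Set.toFinite _)
  have hst : Popable M a (N + 1) ⊆ Popable M a N := by
    rcases popable_card (M := M) (a := a) (N + 1) with h1 | h1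
    · have := hfull (N + 1); omega
    · by_contra hne
      have h2 : N + 1 ≤ (Popable M a (N + 1)).ncard := by
        rcases popable_card (M := M) (a := a) N with h3 | h3
        · have : (Popable M a N).ncard < (Popable M a (N + 1)).ncard :=
            Set.ncard_lt_ncard ⟨popable_mono N, hne⟩ (Set.toFinite _)
          omega
        · exact absurd h3 hne
      have := hfull (N + 1); omega
  have hall : ∀ k, Popable M a (N + k + 1) ⊆ Popable M a (N + k) := by
    intro k
    induction k with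
    | zero => exact hst
    | succ k ih => exact popable_stable ih
  have hall2 : ∀ k, Popable M a (N + k) ⊆ Popable M a N := by
    intro k
    induction k with
    | zero => exact subset_rfl
    | succ k ih => exact (hall k).trans ih
  obtain ⟨h, hp⟩ := run_pd hr
  have h1 : (q, X, i) ∈ Popable M a (N + h) :=
    ⟨l, q', hp.mono _ (by omega)⟩
  obtain ⟨l', q'', hp'⟩ := hall2 h h1
  have h2 := pop_det hr hp'.run
  have h3 := hp'.le hB
  rw [h2.1]
  simpa using h3

theorem pops_bound {B : ℕ} (hB : PushBound M B) (β : List Γ) : ∀ {i : ZMod n} {l : ℕ} {q q' : Q},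
    M.Run (fac a i l) q β q' [] → l ≤ β.length * (B + 1) ^ (Nat.card Q * Nat.card Γ * n) := by
  induction β with
  | nil =>
    intro i l q q' hr
    obtain ⟨h1, _, _⟩ := run_nil hr
    have := congrArg List.length h1
    rw [length_fac, List.length_nil] at this
    omega
  | cons X γ ih =>
    intro i l q q' hr
    obtain ⟨t, ht⟩ := run_runN hr
    rcases runN_split ht [X] γ rfl with ⟨δ, h1, h2, _⟩ | ⟨t₁, t₂, u, v, q₂, h1, h2, h3, h4⟩
    · exfalso
      apply h1
      have := congrArg List.length h2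
      rw [List.length_append, List.length_nil] at this
      exact List.length_eq_zero_iff.1 (by omega)
    · obtain ⟨l1, l2, rfl, rfl, rfl⟩ := fac_split h2
      have h5 := pop_bound hB h3.run
      have h6 := ih h4.run
      rw [List.length_cons, add_mul, one_mul]
      omega

end Pool.Agent.IGP
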