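import Pool.Agent.Lib_helper6.IGP.Pops
import Pool.Agent.Lib_helper6.IGP.Chain

/-!
# Pumping for deterministic pushdown automata with regular sets of initial stacks
-/

set_option autoImplicit false
set_option linter.unusedSectionVars false

namespace Pool.Agent.IGP

open CoCF

variable {α Q Γ S : Type} {M : DPDA α Q Γ} {D : DFA Γ S} {n : ℕ} {a : ZMod n → α}

/-- descending paths: the stack word `y` is removed while `l` letters are read -/
def Path (M : DPDA α Q Γ) (D : DFA Γ S) (a : ZMod n → α) (v : Q × ZMod n × S) (l : ℕ)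
    (v' : Q × ZMod n × S) : Prop :=
  v'.2.1 = v.2.1 + (l : ZMod n) ∧
    ∃ y, M.Run (fac a v.2.1 l) v.1 y v'.1 [] ∧ v'.2.2 = D.evalFrom v.2.2 y

/-- `L` letters can be read, with acceptance, from some initial stack accepted by the automaton
`D` -/
def Acc (M : DPDA α Q Γ) (D : DFA Γ S) (a : ZMod n → α) (v : Q × ZMod n × S) (L : ℕ) : Prop :=
  ∃ x, D.evalFrom v.2.2 x ∈ D.accept ∧ ∃ q' γ', M.Run (fac a v.2.1 L) v.1 x q' γ' ∧ q' ∈ M.acc

/-- ascending paths -/
def SPath (M : DPDA α Q Γ) (a : ZMod n → α) (t : Q × Γ × ZMod n) (l : ℕ)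
    (t' : Q × Γ × ZMod n) : Prop :=
  t'.2.2 = t.2.2 + (l : ZMod n) ∧ ∃ δ, M.Run (fac a t.2.2 l) t.1 [t.2.1] t'.1 (t'.2.1 :: δ)

/-- `L` letters can be read, with acceptance, above the bottom symbol -/
def Top (M : DPDA α Q Γ) (a : ZMod n → α) (t : Q × Γ × ZMod n) (L : ℕ) : Prop :=
  ∃ q' δ, δ ≠ [] ∧ M.Run (fac a t.2.2 L) t.1 [t.2.1] q' δ ∧ q' ∈ M.acc

/-- the exit from the descending phase -/
def Exit (M : DPDA α Q Γ) (D : DFA Γ S) (a : ZMod n → α) (v : Q × ZMod n × S) (L : ℕ) : Prop :=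
  ∃ q₁ σ₁ X x₂, Path M D a v 0 (q₁, v.2.1, σ₁) ∧ D.evalFrom σ₁ (X :: x₂) ∈ D.accept ∧
    Top M a (q₁, X, v.2.1) L

theorem path_refl (v : Q × ZMod n × S) : Path M D a v 0 v :=
  ⟨by simp, [], DPDA.Run.refl _ _, rfl⟩

theorem path_trans (v : Q × ZMod n × S) (l : ℕ) (v' : Q × ZMod n × S) (l' : ℕ)
    (v'' : Q × ZMod n × S) (h : Path M D a v l v') (h' : Path M D a v' l' v'') :
    Path M D a v (l + l') v'' := by
  obtain ⟨h1, y, h2, h3⟩ := h
  obtain ⟨h4, z, h5, h6⟩ := h'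
  refine ⟨by rw [h4, h1]; push_cast; ring, y ++ z, ?_, ?_⟩
  · rw [fac_add, ← h1]
    have := run_frame h2 z
    rw [List.nil_append] at this
    exact run_trans this h5
  · rw [h6, h3, DFA.evalFrom_of_append]

theorem acc_of_path {v : Q × ZMod n × S} {l : ℕ} {v' : Q × ZMod n × S} {L : ℕ}
    (h : Path M D a v l v') (h' : Acc M D a v' L) : Acc M D a v (l + L) := by
  obtain ⟨h1, y, h2, h3⟩ := h
  obtain ⟨x, h4, q', γ', h5, h6⟩ := h'
  refine ⟨y ++ x, ?_, q', γ', ?_, h6⟩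
  · rw [DFA.evalFrom_of_append, ← h3]; exact h4
  · rw [fac_add, ← h1]
    have := run_frame h2 x
    rw [List.nil_append] at this
    exact run_trans this h5

theorem spath_refl (t : Q × Γ × ZMod n) : SPath M a t 0 t :=
  ⟨by simp, [], DPDA.Run.refl _ _⟩

theorem spath_trans (t : Q × Γ × ZMod n) (l : ℕ) (t' : Q × Γ × ZMod n) (l' : ℕ)
    (t'' : Q × Γ × ZMod n) (h : SPath M a t l t') (h' : SPath M a t' l' t'') :
    SPath M a t (l + l') t'' := by
  obtain ⟨h1, δ, h2⟩ := h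
  obtain ⟨h4, δ', h5⟩ := h'
  refine ⟨by rw [h4, h1]; push_cast; ring, δ' ++ δ, ?_⟩
  rw [fac_add, ← h1]
  exact run_trans h2 (run_frame h5 δ)

theorem top_of_spath {t : Q × Γ × ZMod n} {l : ℕ} {t' : Q × Γ × ZMod n} {L : ℕ}
    (h : SPath M a t l t') (h' : Top M a t' L) : Top M a t (l + L) := by
  obtain ⟨h1, δ, h2⟩ := h
  obtain ⟨q', δ', h4, h5, h6⟩ := h'
  refine ⟨q', δ' ++ δ, ?_, ?_, h6⟩
  · intro h
    exact h4 (List.append_eq_nil_iff.1 h).1
  · rw [fac_add, ← h1]
    exact run_trans h2 (run_frame h5 δ)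

theorem acc_of_exit {v : Q × ZMod n × S} {L : ℕ} (h : Exit M D a v L) : Acc M D a v L := by
  obtain ⟨q₁, σ₁, X, x₂, h1, h2, q', δ, _, h4, h5⟩ := h
  have h6 : Acc M D a (q₁, v.2.1, σ₁) L := by
    refine ⟨X :: x₂, h2, q', δ ++ x₂, ?_, h5⟩
    exact run_frame h4 x₂
  simpa using acc_of_path h1 h6

/-- the step of the descending phase -/
theorem path_step [Finite Q] [Finite Γ] [NeZero n] {B : ℕ} (hB : PushBound M B) (x : List Γ) :
    ∀ (v : Q × ZMod n × S) (L : ℕ), D.evalFrom v.2.2 x ∈ D.accept →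
    (∃ q' γ', M.Run (fac a v.2.1 L) v.1 x q' γ' ∧ q' ∈ M.acc) → 0 < L →
    (∃ l v' L', 0 < l ∧ l ≤ (B + 1) ^ (Nat.card Q * Nat.card Γ * n) ∧ L = l + L' ∧
      Path M D a v l v' ∧ Acc M D a v' L') ∨ Exit M D a v L := by
  induction x with
  | nil =>
    intro v L _ hr hL
    obtain ⟨q', γ', hr, _⟩ := hr
    obtain ⟨h1, _, _⟩ := run_nil hr
    have := congrArg List.length h1
    rw [length_fac, List.length_nil] at this
    omega
  | cons X x ih =>
    intro v L hx hr hL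
    obtain ⟨q', γ', hr, hacc⟩ := hr
    obtain ⟨t, ht⟩ := run_runN hr
    rcases runN_split ht [X] x rfl with ⟨δ, h1, _, h3⟩ | ⟨t₁, t₂, u, w, q₂, _, h2, h3, h4⟩
    · right
      exact ⟨v.1, v.2.2, X, x, path_refl v, hx, q', δ, h1, h3.run, hacc⟩
    · obtain ⟨l1, l2, rfl, rfl, rfl⟩ := fac_split h2
      have hp : Path M D a v l1 (q₂, v.2.1 + (l1 : ZMod n), D.step v.2.2 X) :=
        ⟨rfl, [X], h3.run, rfl⟩
      have hx' : D.evalFrom (D.step v.2.2 X) x ∈ D.accept := hx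
      rcases Nat.eq_zero_or_pos l1 with h0 | h0
      · subst h0
        rw [zero_add] at hL
        rw [Nat.cast_zero, add_zero] at hp h4
        rcases ih (q₂, v.2.1, D.step v.2.2 X) l2 hx' ⟨q', γ', h4.run, hacc⟩ hL with
          ⟨l, v', L', e1, e2, e3, e4, e5⟩ | ⟨q₁, σ₁, Y, x₂, e1, e2, e3⟩
        · left
          refine ⟨l, v', L', e1, e2, by omega, ?_, e5⟩
          have := path_trans _ _ _ _ _ hp e4
          rwa [zero_add] at this
        · right
          refine ⟨q₁, σ₁, Y, x₂, ?_, e2, ?_⟩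
          · have := path_trans _ _ _ _ _ hp e1
            rwa [zero_add] at this
          · rw [zero_add]; exact e3
      · left
        exact ⟨l1, _, l2, h0, pop_bound hB h3.run, rfl, hp, x, hx', q', γ', h4.run, hacc⟩

/-- exposing the stack symbol which stays until the end -/
theorem expose [Finite Q] [Finite Γ] [NeZero n] {B : ℕ} (hB : PushBound M B) (β : List Γ) :
    ∀ (t : ℕ) (i : ZMod n) (L : ℕ) (q q' : Q) (δ : List Γ), δ ≠ [] →
    RunN M t (fac a i L) q β q' δ →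
    ∃ l L' q₂ X t' δ' δ'', l ≤ β.length * (B + 1) ^ (Nat.card Q * Nat.card Γ * n) ∧ L = l + L' ∧
      t' ≤ t ∧ M.Run (fac a i l) q β q₂ (X :: δ'') ∧ δ' ≠ [] ∧
      RunN M t' (fac a (i + (l : ZMod n)) L') q₂ [X] q' δ' := by
  induction β with
  | nil =>
    intro t i L q q' δ hδ hr
    exact absurd (runN_nil hr).2.2 hδ
  | cons X γ ih =>
    intro t i L q q' δ hδ hr
    rcases runN_split hr [X] γ rfl with ⟨δ', h1, _, h3⟩ | ⟨t₁, t₂, u, w, q₂, ht, h2, h3, h4⟩
    · exact ⟨0, L, q, X, t, δ', γ, Nat.zero_le _, by omega, le_rfl, DPDA.Run.refl _ _, h1,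
        by simpa using h3⟩
    · obtain ⟨l1, l2, rfl, rfl, rfl⟩ := fac_split h2
      obtain ⟨l, L', q₃, Y, t', δ', δ'', e1, rfl, e3, e4, e5, e6⟩ := ih t₂ _ _ _ _ _ hδ h4
      have h7 := pop_bound hB h3.run
      refine ⟨l1 + l, L', q₃, Y, t', δ', δ'', ?_, by omega, by omega, ?_, e5, ?_⟩
      · rw [List.length_cons, add_mul, one_mul]; omega
      · rw [fac_add]
        have := run_frame h3.run γ
        exact run_trans this e4
      · have : i + ((l1 + l : ℕ) : ZMod n) = i + (l1 : ZMod n) + (l : ZMod n) := by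
          push_cast; ring
        rw [this]; exact e6

/-- the step of the ascending phase -/
theorem spath_step [Finite Q] [Finite Γ] [NeZero n] {B : ℕ} (hB : PushBound M B) (t : ℕ) :
    ∀ (i : ZMod n) (L : ℕ) (q : Q) (X : Γ) (q' : Q) (δ : List Γ), δ ≠ [] → q' ∈ M.acc →
    RunN M t (fac a i L) q [X] q' δ → 0 < L →
    ∃ l t' L', 0 < l ∧ l ≤ 1 + B * (B + 1) ^ (Nat.card Q * Nat.card Γ * n) ∧ L = l + L' ∧
      SPath M a (q, X, i) l t' ∧ Top M a t' L' := by
  induction t using Nat.strong_induction_on with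
  | _ t IH =>
    intro i L q X q' δ hδ hacc hr hL
    generalize hw : fac a i L = w at hr
    cases hr with
    | refl =>
      exfalso
      have := congrArg List.length hw
      rw [length_fac, List.length_nil] at this
      omega
    | @silent t _ _ q₁ β _ _ _ _ he hr2 =>
      subst hw
      rw [List.append_nil] at hr2
      obtain ⟨l, L', q₂, Y, t', δ', δ'', e1, rfl, e3, e4, e5, e6⟩ := expose hB β t i L q₁ q' δ hδ hr2
      have hs : SPath M a (q, X, i) l (q₂, Y, i + (l : ZMod n)) := by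
        refine ⟨rfl, δ'', DPDA.Run.silent he ?_⟩
        rw [List.append_nil]
        exact e4
      have hβ := hB.1 _ _ _ _ he
      rcases Nat.eq_zero_or_pos l with h0 | h0
      · subst h0
        rw [Nat.cast_zero, add_zero] at hs e6
        obtain ⟨l, t'', L'', g1, g2, g3, g4, g5⟩ := IH t' (by omega) i L' q₂ Y q' δ' e5 hacc e6
          (by omega)
        refine ⟨l, t'', L'', g1, g2, by omega, ?_, g5⟩
        have := spath_trans _ _ _ _ _ hs g4
        rwa [zero_add] at this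
      · refine ⟨l, _, L', h0, ?_, rfl, hs, q', δ', e5, e6.run, hacc⟩
        have := Nat.mul_le_mul_right ((B + 1) ^ (Nat.card Q * Nat.card Γ * n)) hβ
        omega
    | @letter t _ _ b q₁ β w _ _ _ he he' hr2 =>
      obtain ⟨L₀, rfl⟩ : ∃ L₀, L = 1 + L₀ := ⟨L - 1, by omega⟩
      rw [fac_one_add, List.cons.injEq] at hw
      obtain ⟨rfl, rfl⟩ := hw
      rw [List.append_nil] at hr2
      obtain ⟨l, L', q₂, Y, t', δ', δ'', e1, rfl, e3, e4, e5, e6⟩ :=
        expose hB β t (i + 1) L₀ q₁ q' δ hδ hr2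
      have hi : i + ((1 + l : ℕ) : ZMod n) = i + 1 + (l : ZMod n) := by push_cast; ring
      have hs : SPath M a (q, X, i) (1 + l) (q₂, Y, i + ((1 + l : ℕ) : ZMod n)) := by
        refine ⟨rfl, δ'', ?_⟩
        change M.Run (fac a i (1 + l)) q [X] q₂ (Y :: δ'')
        rw [fac_one_add]
        refine DPDA.Run.letter he he' ?_
        rw [List.append_nil]
        exact e4
      have hβ := hB.2 _ _ _ _ _ he'
      refine ⟨1 + l, _, L', by omega, ?_, by omega, hs, q', δ', e5, ?_, hacc⟩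
      · have := Nat.mul_le_mul_right ((B + 1) ^ (Nat.card Q * Nat.card Γ * n)) hβ
        omega
      · change M.Run (fac a (i + ((1 + l : ℕ) : ZMod n)) L') q₂ [Y] q' δ'
        rw [hi]
        exact e6.run

/-- the two kinds of loops -/
def LoopAt (M : DPDA α Q Γ) (D : DFA Γ S) (a : ZMod n → α) :
    (Q × ZMod n × S) ⊕ (Q × Γ × ZMod n) → ℕ → Prop
  | Sum.inl v, d => Path M D a v d v
  | Sum.inr t, d => SPath M a t d t

theorem loopAt_dvd {τ : (Q × ZMod n × S) ⊕ (Q × Γ × ZMod n)} {d : ℕ} (h : LoopAt M D a τ d) :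
    n ∣ d := by
  rw [← ZMod.natCast_eq_zero_iff]
  rcases τ with v | t
  · have := h.1
    exact (left_eq_add.1 this)
  · have := h.1
    exact (left_eq_add.1 this)

/-- **Pumping.** -/
theorem pumping [Fintype Q] [Fintype Γ] [Fintype S] [NeZero n] {B : ℕ} (hB : PushBound M B)
    {T : ℕ} (hT : T = 1 + (B + 1) * (B + 1) ^ (Nat.card Q * Nat.card Γ * n))
    {K : ℕ} (hK : K = Fintype.card (Q × ZMod n × S) + Fintype.card (Q × Γ × ZMod n))
    {v : Q × ZMod n × S} {L : ℕ} (hA : Acc M D a v L) (hL : K * T < L) :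
    ∃ τ : (Q × ZMod n × S) ⊕ (Q × Γ × ZMod n), (∃ d, 0 < d ∧ d ≤ K * T ∧ LoopAt M D a τ d) ∧
      ∀ d, LoopAt M D a τ d → ∀ r, Acc M D a v (L + r * d) := by
  have hT1 : (B + 1) ^ (Nat.card Q * Nat.card Γ * n) ≤ T := by rw [hT]; nlinarith
  have hT2 : 1 + B * (B + 1) ^ (Nat.card Q * Nat.card Γ * n) ≤ T := by
    rw [hT]
    exact Nat.add_le_add_left (Nat.mul_le_mul_right _ (Nat.le_succ B)) 1
  have hstep : ∀ (v : Q × ZMod n × S) (L : ℕ), Acc M D a v L → 0 < L →
      (∃ l v' L', 0 < l ∧ l ≤ T ∧ L = l + L' ∧ Path M D a v l v' ∧ Acc M D a v' L') ∨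
        Exit M D a v L := by
    intro v L ⟨x, hx, hr⟩ hL
    rcases path_step hB x v L hx hr hL with ⟨l, v', L', h1, h2, h3⟩ | h
    · exact Or.inl ⟨l, v', L', h1, h2.trans hT1, h3⟩
    · exact Or.inr h
  have hL1 : Fintype.card (Q × ZMod n × S) * T < L := by
    have := Nat.mul_le_mul_right T (show Fintype.card (Q × ZMod n × S) ≤ K by omega)
    omega
  obtain ⟨v', l, L', h1, rfl, h3, h4, h5⟩ := chain' (Path M D a) (Acc M D a) (Exit M D a) T
    path_refl path_trans hstep v L hA hL1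
  rcases h5 with h5 | ⟨h5, d, hd1, hd2, hd3⟩
  · obtain ⟨q₁, σ₁, X, x₂, e1, e2, e3⟩ := h5
    have hstep2 : ∀ (t : Q × Γ × ZMod n) (L : ℕ), Top M a t L → 0 < L →
        (∃ l t' L', 0 < l ∧ l ≤ T ∧ L = l + L' ∧ SPath M a t l t' ∧ Top M a t' L') ∨
          (fun (_ : Q × Γ × ZMod n) (_ : ℕ) => False) t L := by
      rintro ⟨q, X, i⟩ L ⟨q', δ, g1, g2, g3⟩ hL
      obtain ⟨s, hs⟩ := run_runN g2
      obtain ⟨l, t', L', g4, g5, g6⟩ := spath_step hB s i L q X q' δ g1 g3 hs hL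
      exact Or.inl ⟨l, t', L', g4, g5.trans hT2, g6⟩
    have hL2 : Fintype.card (Q × Γ × ZMod n) * T < L' := by
      rw [hK, Nat.add_mul] at hL
      omega
    obtain ⟨t', l2, L'', g1, rfl, g3, g4, g5⟩ := chain' (SPath M a) (Top M a)
      (fun (_ : Q × Γ × ZMod n) (_ : ℕ) => False) T
      spath_refl spath_trans hstep2 _ L' e3 hL2
    rcases g5 with g5 | ⟨g5, d, hd1, hd2, hd3⟩
    · exact absurd g5 id
    · refine ⟨Sum.inr t', ⟨d, hd1, ?_, hd3⟩, ?_⟩
      · have := Nat.mul_le_mul_right T (show Fintype.card (Q × Γ × ZMod n) ≤ K by omega)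
        omega
      · intro d' hd' r
        have k1 := loop_iter (SPath M a) spath_refl spath_trans (show SPath M a t' d' t' from hd') r
        have k2 := top_of_spath k1 g5
        have k3 := top_of_spath g3 k2
        have k4 : Exit M D a v' (l2 + (r * d' + L'')) := ⟨q₁, σ₁, X, x₂, e1, e2, k3⟩
        have k5 := acc_of_path h3 (acc_of_exit k4)
        have : l + (l2 + L'') + r * d' = l + (l2 + (r * d' + L'')) := by ring
        rw [this]
        exact k5
  · refine ⟨Sum.inl v', ⟨d, hd1, ?_, hd3⟩, ?_⟩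
    · have := Nat.mul_le_mul_right T (show Fintype.card (Q × ZMod n × S) ≤ K by omega)
      omega
    · intro d' hd' r
      have k1 := loop_iter (Path M D a) path_refl path_trans (show Path M D a v' d' v' from hd') r
      have k2 := acc_of_path h3 (acc_of_path k1 h5)
      have : l + L' + r * d' = l + (r * d' + L') := by ring
      rw [this]
      exact k2

end Pool.Agent.IGP
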