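import Pool.Agent.Lib_helper6.IGP.Defs
import Pool.Agent.Lib_helper85.CoCF.Orders

/-!
# Runs of deterministic pushdown automata
-/

set_option autoImplicit false
set_option linter.unusedSectionVars false

namespace Pool.Agent.IGP

open CoCF

variable {α Q Γ : Type} {M : DPDA α Q Γ}

/-- runs with a number of steps -/
inductive RunN (M : DPDA α Q Γ) : ℕ → List α → Q → List Γ → Q → List Γ → Prop
  | refl (q : Q) (γ : List Γ) : RunN M 0 [] q γ q γ
  | silent {t : ℕ} {q : Q} {X : Γ} {q₁ : Q} {β : List Γ} {w : List α} {γ : List Γ} {q' : Q}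
      {γ' : List Γ} (h : M.eps q X = some (q₁, β)) (hr : RunN M t w q₁ (β ++ γ) q' γ') :
      RunN M (t + 1) w q (X :: γ) q' γ'
  | letter {t : ℕ} {q : Q} {X : Γ} {a : α} {q₁ : Q} {β : List Γ} {w : List α} {γ : List Γ}
      {q' : Q} {γ' : List Γ} (h : M.eps q X = none) (h' : M.read q X a = some (q₁, β))
      (hr : RunN M t w q₁ (β ++ γ) q' γ') : RunN M (t + 1) (a :: w) q (X :: γ) q' γ'

theorem RunN.run {t : ℕ} {w : List α} {q : Q} {γ : List Γ} {q' : Q} {γ' : List Γ}
    (h : RunN M t w q γ q' γ') : M.Run w q γ q' γ' := by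
  induction h with
  | refl q γ => exact DPDA.Run.refl q γ
  | silent h _ ih => exact DPDA.Run.silent h ih
  | letter h h' _ ih => exact DPDA.Run.letter h h' ih

theorem run_runN {w : List α} {q : Q} {γ : List Γ} {q' : Q} {γ' : List Γ}
    (h : M.Run w q γ q' γ') : ∃ t, RunN M t w q γ q' γ' := by
  induction h with
  | refl q γ => exact ⟨0, RunN.refl q γ⟩
  | silent h _ ih => obtain ⟨t, ht⟩ := ih; exact ⟨t + 1, RunN.silent h ht⟩
  | letter h h' _ ih => obtain ⟨t, ht⟩ := ih; exact ⟨t + 1, RunN.letter h h' ht⟩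

theorem run_trans {u v : List α} {q₁ q₂ q₃ : Q} {γ₁ γ₂ γ₃ : List Γ}
    (h₁ : M.Run u q₁ γ₁ q₂ γ₂) (h₂ : M.Run v q₂ γ₂ q₃ γ₃) : M.Run (u ++ v) q₁ γ₁ q₃ γ₃ := by
  induction h₁ with
  | refl q γ => exact h₂
  | silent h _ ih => exact DPDA.Run.silent h (ih h₂)
  | letter h h' _ ih => exact DPDA.Run.letter h h' (ih h₂)

theorem run_frame {u : List α} {q₁ q₂ : Q} {γ₁ γ₂ : List Γ}
    (h : M.Run u q₁ γ₁ q₂ γ₂) (δ : List Γ) : M.Run u q₁ (γ₁ ++ δ) q₂ (γ₂ ++ δ) := by
  induction h with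
  | refl q γ => exact DPDA.Run.refl q _
  | silent h _ ih =>
    rw [List.append_assoc] at ih
    exact DPDA.Run.silent h ih
  | letter h h' _ ih =>
    rw [List.append_assoc] at ih
    exact DPDA.Run.letter h h' ih

theorem runN_nil {t : ℕ} {w : List α} {q : Q} {q' : Q} {γ' : List Γ}
    (h : RunN M t w q [] q' γ') : w = [] ∧ q' = q ∧ γ' = [] := by
  cases h with
  | refl => exact ⟨rfl, rfl, rfl⟩

theorem run_nil {w : List α} {q : Q} {q' : Q} {γ' : List Γ}
    (h : M.Run w q [] q' γ') : w = [] ∧ q' = q ∧ γ' = [] := by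
  cases h with
  | refl => exact ⟨rfl, rfl, rfl⟩

/-- Splitting a run at the moment when the upper part `β` of the stack is removed. -/
theorem runN_split {t : ℕ} {w : List α} {q : Q} {s : List Γ} {q' : Q} {γ' : List Γ}
    (h : RunN M t w q s q' γ') : ∀ β γ : List Γ, s = β ++ γ →
    (∃ δ, δ ≠ [] ∧ γ' = δ ++ γ ∧ RunN M t w q β q' δ) ∨
    (∃ t₁ t₂ u v q₁, t = t₁ + t₂ ∧ w = u ++ v ∧ RunN M t₁ u q β q₁ [] ∧
      RunN M t₂ v q₁ γ q' γ') := by
  induction h with
  | refl q s =>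
    intro β γ hs
    rcases List.eq_nil_or_concat β with hb | _
    · subst hb
      exact Or.inr ⟨0, 0, [], [], q, rfl, rfl, RunN.refl q [], by rw [hs]; exact RunN.refl q _⟩
    · by_cases hb : β = []
      · subst hb
        exact Or.inr ⟨0, 0, [], [], q, rfl, rfl, RunN.refl q [], by rw [hs]; exact RunN.refl q _⟩
      · exact Or.inl ⟨β, hb, hs, RunN.refl q β⟩
  | @silent t q X q₁ β₁ w s q' γ' h hr ih =>
    intro β γ hs
    cases β with
    | nil =>
      rw [List.nil_append] at hs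
      exact Or.inr ⟨0, t + 1, [], w, q, by omega, rfl, RunN.refl q [],
        by rw [← hs]; exact RunN.silent h hr⟩
    | cons Y β₀ =>
      rw [List.cons_append, List.cons.injEq] at hs
      obtain ⟨rfl, rfl⟩ := hs
      rcases ih (β₁ ++ β₀) γ (by rw [List.append_assoc]) with ⟨δ, h1, h2, h3⟩ |
        ⟨t₁, t₂, u, v, q₂, h1, h2, h3, h4⟩
      · exact Or.inl ⟨δ, h1, h2, RunN.silent h h3⟩
      · exact Or.inr ⟨t₁ + 1, t₂, u, v, q₂, by omega, h2, RunN.silent h h3, h4⟩
  | @letter t q X a q₁ β₁ w s q' γ' h h' hr ih =>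
    intro β γ hs
    cases β with
    | nil =>
      rw [List.nil_append] at hs
      exact Or.inr ⟨0, t + 1, [], a :: w, q, by omega, rfl, RunN.refl q [],
        by rw [← hs]; exact RunN.letter h h' hr⟩
    | cons Y β₀ =>
      rw [List.cons_append, List.cons.injEq] at hs
      obtain ⟨rfl, rfl⟩ := hs
      rcases ih (β₁ ++ β₀) γ (by rw [List.append_assoc]) with ⟨δ, h1, h2, h3⟩ |
        ⟨t₁, t₂, u, v, q₂, h1, h2, h3, h4⟩
      · exact Or.inl ⟨δ, h1, h2, RunN.letter h h' h3⟩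
      · exact Or.inr ⟨t₁ + 1, t₂, a :: u, v, q₂, by omega, by rw [h2]; rfl,
          RunN.letter h h' h3, h4⟩

/-- Determinism of complete pops along comparable words. -/
theorem run_pop_det {w : List α} {q : Q} {s : List Γ} {q₁ : Q} {s₁ : List Γ}
    (h : M.Run w q s q₁ s₁) : s₁ = [] → ∀ {w' : List α} {q₁' : Q}, M.Run w' q s q₁' [] →
    (w <+: w' ∨ w' <+: w) → w = w' ∧ q₁ = q₁' := by
  induction h with
  | refl q γ =>
    intro hs w' q₁' h' _
    subst hs
    obtain ⟨h1, h2, _⟩ := run_nil h'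
    exact ⟨h1.symm, h2.symm⟩
  | @silent q X q₂ β w γ q' γ' h _ ih =>
    intro hs w' q₁' h' hc
    cases h' with
    | silent h2 hr2 =>
      rw [h] at h2
      obtain ⟨rfl, rfl⟩ := Prod.mk.injEq _ _ _ _ ▸ (Option.some.inj h2)
      exact ih hs hr2 hc
    | letter h2 _ _ => rw [h] at h2; cases h2
  | @letter q X a q₂ β w γ q' γ' h h' _ ih =>
    intro hs w' q₁' hw' hc
    cases hw' with
    | silent h2 _ => rw [h] at h2; cases h2
    | @letter _ _ a' q₃ β' w₂ _ _ _ h2 h3 hr2 =>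
      have ha : a = a' := by
        rcases hc with ⟨r, hr⟩ | ⟨r, hr⟩
        · rw [List.cons_append, List.cons.injEq] at hr; exact hr.1
        · rw [List.cons_append, List.cons.injEq] at hr; exact hr.1.symm
      subst ha
      rw [h'] at h3
      obtain ⟨rfl, rfl⟩ := Prod.mk.injEq _ _ _ _ ▸ (Option.some.inj h3)
      have hc' : w <+: w₂ ∨ w₂ <+: w := by
        rcases hc with hc | hc
        · exact Or.inl ((List.cons_prefix_cons.1 hc).2)
        · exact Or.inr ((List.cons_prefix_cons.1 hc).2)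
      obtain ⟨h5, h6⟩ := ih hs hr2 hc'
      exact ⟨by rw [h5], h6⟩

variable {n : ℕ} {a : ZMod n → α}

theorem fac_comparable (i : ZMod n) (ℓ ℓ' : ℕ) :
    fac a i ℓ <+: fac a i ℓ' ∨ fac a i ℓ' <+: fac a i ℓ := by
  rcases le_total ℓ ℓ' with h | h
  · left
    obtain ⟨c, rfl⟩ := Nat.exists_eq_add_of_le h
    rw [fac_add]
    exact List.prefix_append _ _
  · right
    obtain ⟨c, rfl⟩ := Nat.exists_eq_add_of_le h
    rw [fac_add]
    exact List.prefix_append _ _

theorem fac_split {i : ZMod n} {L : ℕ} {u v : List α} (h : fac a i L = u ++ v) :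
    ∃ ℓ ℓ', L = ℓ + ℓ' ∧ u = fac a i ℓ ∧ v = fac a (i + (ℓ : ZMod n)) ℓ' := by
  have hl : L = u.length + v.length := by
    have := congrArg List.length h
    rwa [length_fac, List.length_append] at this
  refine ⟨u.length, v.length, hl, ?_⟩
  rw [hl, fac_add] at h
  have := List.append_inj h (by rw [length_fac])
  exact ⟨this.1.symm, this.2.symm⟩

theorem pop_det {i : ZMod n} {ℓ ℓ' : ℕ} {q q₁ q₁' : Q} {β : List Γ}
    (h : M.Run (fac a i ℓ) q β q₁ []) (h' : M.Run (fac a i ℓ') q β q₁' []) :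
    ℓ = ℓ' ∧ q₁ = q₁' := by
  obtain ⟨h1, h2⟩ := run_pop_det h rfl h' (fac_comparable i ℓ ℓ')
  refine ⟨?_, h2⟩
  have := congrArg List.length h1
  rwa [length_fac, length_fac] at this

end Pool.Agent.IGP
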